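import Pool.Agent.T6.H45.Inner3

/-!
# MP_d967a3_an, Q1: billiard tables of `ℝⁿ`, `n ≥ 3`, other than ellipsoids, whose billiard map has
an invariant hypersurface

The definitions `Euc`, `IsTable`, `IsOuterNormal`, `outerNormal`, `IsEllipsoid`, `lines`,
`lineTangent`, `lineThrough`, `exitPoint`, `billiardMap`, `IsInvariantHypersurface` are in
`Pool/Agent/H703R3/MBDefs.lean`.

The tables need not have any symmetry: they are all the small smooth perturbations of the unit ball
which are supported away from a great circle. A line whose angular momentum in the plane of the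
great circle is `c` meets only points at distance at least `c` from the orthogonal complement of the
plane, so it does not notice a perturbation closer to this complement.
-/

set_option autoImplicit false

open Set Filter Topology
open scoped RealInnerProductSpace ContDiff

namespace Pool.Agent.Results.MP_d967a3_an.InnerHypersurface

open Pool.Agent.H703R3.MB Pool.Agent.T6.H45

/-- The perturbed unit ball `{x : ‖x‖² + ε φ(x) ≤ 1}`. -/
def perturbedBall {n : ℕ} (φ : Euc n → ℝ) (ε : ℝ) : Set (Euc n) :=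
  {x | ‖x‖ ^ 2 + ε * φ x ≤ 1}

/-- The angular momentum `p_i v_j - p_j v_i` of the oriented line `l = (p, v)` in the plane of the
coordinates `i`, `j` (the same for all points `p` of the line). -/
def angularMomentum {n : ℕ} (i j : Fin n) (l : Euc n × Euc n) : ℝ :=
  l.1 i * l.2 j - l.1 j * l.2 i

/-- For every `n ≥ 3` there is a billiard table in `ℝⁿ`, not an ellipsoid, whose billiard map has an
invariant hypersurface. More precisely, let `i ≠ j`, `0 < c < 1`, and let `φ` be any smooth function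
with compact support in `x_i² + x_j² < c²`. For all small `ε ≠ 0` the perturbed unit ball
`‖x‖² + ε φ(x) ≤ 1` is a table, it is not an ellipsoid unless `φ` vanishes on the unit sphere (that
is, unless it is the unit ball), and for every `c' ∈ [c, 1)` the oriented lines that meet its
interior and have the angular momentum `c'` in the plane of the coordinates `i`, `j` form an
invariant hypersurface. -/
theorem result : ∀ n : ℕ, 3 ≤ n →
    (∃ Ω : Set (Euc n), IsTable Ω ∧ ¬ IsEllipsoid Ω ∧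
      ∃ S : Set (Euc n × Euc n), IsInvariantHypersurface Ω S) ∧
    ∀ i j : Fin n, i ≠ j → ∀ c : ℝ, 0 < c → c < 1 → ∀ φ : Euc n → ℝ, ContDiff ℝ ∞ φ →
      HasCompactSupport φ → tsupport φ ⊆ {x | x i ^ 2 + x j ^ 2 < c ^ 2} →
      ∃ ε₀ : ℝ, 0 < ε₀ ∧ ∀ ε : ℝ, ε ≠ 0 → |ε| ≤ ε₀ →
        IsTable (perturbedBall φ ε) ∧
        ((∃ x : Euc n, ‖x‖ = 1 ∧ φ x ≠ 0) → ¬ IsEllipsoid (perturbedBall φ ε)) ∧
        ∀ c' : ℝ, c ≤ c' → c' < 1 → IsInvariantHypersurface (perturbedBall φ ε)
          {l | l ∈ lines (perturbedBall φ ε) ∧ angularMomentum i j l = c'} := by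
  intro n hn
  have main : ∀ i j : Fin n, i ≠ j → ∀ c : ℝ, 0 < c → c < 1 → ∀ φ : Euc n → ℝ, ContDiff ℝ ∞ φ →
      HasCompactSupport φ → tsupport φ ⊆ {x | x i ^ 2 + x j ^ 2 < c ^ 2} →
      ∃ ε₀ : ℝ, 0 < ε₀ ∧ ∀ ε : ℝ, ε ≠ 0 → |ε| ≤ ε₀ →
        IsTable (perturbedBall φ ε) ∧
        ((∃ x : Euc n, ‖x‖ = 1 ∧ φ x ≠ 0) → ¬ IsEllipsoid (perturbedBall φ ε)) ∧
        ∀ c' : ℝ, c ≤ c' → c' < 1 → IsInvariantHypersurface (perturbedBall φ ε)
          {l | l ∈ lines (perturbedBall φ ε) ∧ angularMomentum i j l = c'} := by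
    intro i j hij c hc0 hc1 φ h1 h2 h3
    obtain ⟨ε₀, hε₀, H⟩ := Inner2.nice_pf h1 h2
    refine ⟨ε₀, hε₀, fun ε hε0 hε => ?_⟩
    have hN := H ε hε
    have hfar : ∀ x : Euc n, c ^ 2 ≤ x i ^ 2 + x j ^ 2 →
        Inner2.pf φ ε x = ‖x‖ ^ 2 ∧ Inner2.pg φ ε x = (2 : ℝ) • x := by
      intro x hx
      apply Inner2.pf_far
      intro hx'
      exact absurd (h3 hx') (not_lt.2 hx)
    refine ⟨hN.isTable, ?_, ?_⟩
    · rintro ⟨x, hx, hφ⟩ hE
      have h4 : ‖x‖ ^ 2 + ε * φ x = 1 :=
        Inner2.ellipsoid_imp hN hij hc1 hc0 (fun x hx => (hfar x hx).1) hE x hx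
      rw [hx] at h4
      have h5 : ε * φ x = 0 := by linarith
      exact (mul_ne_zero hε0 hφ) h5
    · intro c' hc hc'
      exact Inner2.isInvariant hN hij (hc0.trans_le hc) hc' fun x hx =>
        hfar x (le_trans (by nlinarith) hx)
  refine ⟨?_, main⟩
  set i : Fin n := ⟨0, by omega⟩ with hi
  set j : Fin n := ⟨1, by omega⟩ with hj
  set k : Fin n := ⟨2, by omega⟩ with hk
  have hij : i ≠ j := by rw [hi, hj]; simp
  have hik : i ≠ k := by rw [hi, hk]; simp
  have hjk : j ≠ k := by rw [hj, hk]; simp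
  set e : Euc n := EuclideanSpace.single k (1 : ℝ) with he
  let b : ContDiffBump e := ⟨1 / 8, 1 / 4, by norm_num, by norm_num⟩
  obtain ⟨ε₀, hε₀, H⟩ := main i j hij (1 / 2) (by norm_num) (by norm_num) b b.contDiff
    b.hasCompactSupport (by
      rw [b.tsupport_eq]
      intro x hx
      have h1 := Inner2.two_le_norm hij (x - e)
      rw [Metric.mem_closedBall, dist_eq_norm] at hx
      have h2 : (x - e) i = x i := by simp [he, hik]
      have h3 : (x - e) j = x j := by simp [he, hjk]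
      rw [h2, h3] at h1
      have h4 : ‖x - e‖ ^ 2 ≤ (1 / 4) ^ 2 := by
        have : ‖x - e‖ ≤ 1 / 4 := hx
        nlinarith [norm_nonneg (x - e)]
      show x i ^ 2 + x j ^ 2 < (1 / 2) ^ 2
      linarith)
  obtain ⟨h1, h2, h3⟩ := H ε₀ hε₀.ne' (by rw [abs_of_pos hε₀])
  refine ⟨perturbedBall b ε₀, h1, h2 ⟨e, by simp [he], ?_⟩, _, h3 (1 / 2) le_rfl (by norm_num)⟩
  rw [b.one_of_mem_closedBall (Metric.mem_closedBall_self (by norm_num))]
  exact one_ne_zero

end Pool.Agent.Results.MP_d967a3_an.InnerHypersurface
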